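import Mathlib

set_option autoImplicit false

namespace Pool.Agent.Results.MP_6a261b_co.FourBound

open Finset unitInterval

/-- a drawing of a multigraph with vertex set `Fin n` and edge set `E` -/
structure Drawing (n : ℕ) (E : Type) where
  pos : Fin n → ℝ × ℝ
  inj : Function.Injective pos
  src : E → Fin n
  tgt : E → Fin n
  φ : E → C(I, ℝ × ℝ)
  h0 : ∀ e, φ e 0 = pos (src e)
  h1 : ∀ e, φ e 1 = pos (tgt e)
  avoid : ∀ e t, t ≠ 0 → t ≠ 1 → ∀ v, φ e t ≠ pos v

variable {n : ℕ} {E : Type}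

/-- no loops, and each edge meets each vertical line in at most one point -/
def Drawing.Mono (D : Drawing n E) : Prop :=
  ∀ e, D.src e ≠ D.tgt e ∧ ∀ s t, (D.φ e s).1 = (D.φ e t).1 → D.φ e s = D.φ e t

/-- a homotopy from `α` to `β` fixing the ends `v`, `w` and missing all other vertices -/
def Drawing.Hty (D : Drawing n E) (v w : Fin n) (α β : I → ℝ × ℝ) : Prop :=
  ∃ H : C(I × I, ℝ × ℝ), (∀ t, H (0, t) = α t) ∧ (∀ t, H (1, t) = β t) ∧
    (∀ s, H (s, 0) = D.pos v) ∧ (∀ s, H (s, 1) = D.pos w) ∧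
    ∀ p x, x ≠ v → x ≠ w → H p ≠ D.pos x

/-- `e` and `f` are parallel and homotopic (`f` is reversed when it runs the other way) -/
def Drawing.Homotopic (D : Drawing n E) (e f : E) : Prop :=
  (D.src e = D.src f ∧ D.tgt e = D.tgt f ∧ D.Hty (D.src e) (D.tgt e) (D.φ e) (D.φ f)) ∨
  (D.src e = D.tgt f ∧ D.tgt e = D.src f ∧
    D.Hty (D.src e) (D.tgt e) (D.φ e) (fun t => D.φ f (σ t)))

/-- the crossings involving exactly `e` and `f` -/
def Drawing.crossings (D : Drawing n E) (e f : E) : Set (I × I) :=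
  {p | p.1 ≠ 0 ∧ p.1 ≠ 1 ∧ p.2 ≠ 0 ∧ p.2 ≠ 1 ∧ D.φ e p.1 = D.φ f p.2}

/-! combinatorial part -/

abbrev A := Option SignType

def lt (x y : A) : Prop := ∃ a b, x = some a ∧ y = some b ∧ a < b

inductive Alt : ℕ → List A → List A → Prop
  | zero (w w' : List A) : Alt 0 w w'
  | skip {j : ℕ} {w w' : List A} (x y : A) : Alt j w w' → Alt j (x :: w) (y :: w')
  | step {j : ℕ} {w w' : List A} {x y : A} : lt x y → Alt j w' w → Alt (j + 1) (x :: w) (y :: w')

/-- states: 0 not started, 1 open, 2 closed, 3 bad -/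
def δ (q : Fin 4) (x : A) : Fin 4 :=
  if q = 0 then (if x = none then 0 else if x = some 0 then 1 else 3)
  else if q = 1 then (if x = none then 3 else if x = some 0 then 2 else 1)
  else if q = 2 then (if x = none then 2 else 3) else 3

def st : List A → Fin 4
  | [] => 0
  | x :: w => δ (st w) x

def K (j : ℕ) (F : Finset (List A)) : Prop := ∀ w ∈ F, ∀ w' ∈ F, ¬ Alt j w w'

lemma st0 : ∀ w w' : List A, w.length = w'.length → st w = 0 → st w' = 0 → w = w'
  | [], [], _, _, _ => rfl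
  | x :: w, y :: w', h, h1, h2 => by
    have d : ∀ (q : Fin 4) (x : A), δ q x = 0 → q = 0 ∧ x = none := by decide
    obtain ⟨a1, rfl⟩ := d _ _ h1
    obtain ⟨a2, rfl⟩ := d _ _ h2
    rw [st0 w w' (by simpa using h) a1 a2]

lemma st1 : ∀ w w' : List A, w.length = w'.length → st w = 1 → st w' = 1 →
    w = w' ∨ Alt 1 w w' ∨ Alt 1 w' w
  | [], [], _, _, _ => Or.inl rfl
  | x :: w, y :: w', h, h1, h2 => by
    have d : ∀ (q q' : Fin 4) (x y : A), δ q x = 1 → δ q' y = 1 →
      (∃ a b, x = some a ∧ y = some b ∧ a < b) ∨ (∃ a b, y = some a ∧ x = some b ∧ a < b) ∨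
        (x = y ∧ ((q = 0 ∧ q' = 0) ∨ (q = 1 ∧ q' = 1))) := by decide
    have hl : w.length = w'.length := by simpa using h
    rcases d _ _ _ _ h1 h2 with e | e | ⟨rfl, ⟨a1, a2⟩ | ⟨a1, a2⟩⟩
    · exact Or.inr (Or.inl (.step e (.zero _ _)))
    · exact Or.inr (Or.inr (.step e (.zero _ _)))
    · rw [st0 w w' hl a1 a2]; exact Or.inl rfl
    · rcases st1 w w' hl a1 a2 with e | e | e
      · rw [e]; exact Or.inl rfl
      · exact Or.inr (Or.inl (.skip _ _ e))
      · exact Or.inr (Or.inr (.skip _ _ e))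

def fib (F : Finset (List A)) (x : A) (q : Fin 4) : Finset (List A) :=
  ((F.filter fun w => w.head? = some x).image List.tail).filter fun w => st w = q

lemma mem_fib {F : Finset (List A)} {x : A} {q : Fin 4} {w : List A} :
    w ∈ fib F x q ↔ x :: w ∈ F ∧ st w = q := by
  simp only [fib, mem_filter, mem_image]
  constructor
  · rintro ⟨⟨u, ⟨h1, h2⟩, rfl⟩, h3⟩
    cases u with
    | nil => simp at h2
    | cons y u => simp at h2; subst h2; exact ⟨h1, h3⟩
  · rintro ⟨h1, h2⟩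
    exact ⟨⟨x :: w, ⟨h1, rfl⟩, rfl⟩, h2⟩

lemma card_le_fib (F : Finset (List A)) (m : ℕ) (hl : ∀ w ∈ F, w.length = m + 1)
    (S : Finset (A × Fin 4)) (hS : ∀ x w, x :: w ∈ F → (x, st w) ∈ S) :
    F.card ≤ ∑ s ∈ S, (fib F s.1 s.2).card := by
  calc F.card ≤ (S.biUnion fun s => (fib F s.1 s.2).image (List.cons s.1)).card := by
        apply card_le_card
        intro w hw
        cases w with
        | nil => simpa using hl _ hw
        | cons x w =>
          exact mem_biUnion.2 ⟨_, hS x w hw, mem_image_of_mem _ (mem_fib.2 ⟨hw, rfl⟩)⟩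
    _ ≤ _ := card_biUnion_le.trans (sum_le_sum fun s _ => card_image_le)

lemma fib0 (F : Finset (List A)) (m : ℕ) (hl : ∀ w ∈ F, w.length = m + 1) (x : A) :
    (fib F x 0).card ≤ 1 :=
  card_le_one.2 fun w hw w' hw' => by
    rw [mem_fib] at hw hw'
    have a1 := hl _ hw.1
    have a2 := hl _ hw'.1
    simp only [List.length_cons] at a1 a2
    exact st0 _ _ (by omega) hw.2 hw'.2

def S (m j : ℕ) : ℕ := ∑ r ∈ range j, m.choose r

lemma S_succ (m j : ℕ) : S (m + 1) (j + 1) = S m (j + 1) + S m j := by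
  simp only [S, sum_range_succ', Nat.choose_succ_succ', sum_add_distrib, Nat.choose_zero_right]
  omega

lemma S_pos (m j : ℕ) : 1 ≤ S m (j + 1) := by
  simp only [S, sum_range_succ', Nat.choose_zero_right]; omega

lemma Gb : ∀ (m j : ℕ) (F : Finset (List A)), (∀ w ∈ F, w.length = m) → (∀ w ∈ F, st w = 1) →
    K (j + 1) F → F.card + 1 ≤ 2 * S m (j + 1)
  | m, 0, F, hl, hs, hK => by
    have : F.card ≤ 1 := card_le_one.2 fun w hw w' hw' => by
      rcases st1 w w' ((hl _ hw).trans (hl _ hw').symm) (hs _ hw) (hs _ hw') with e | e | e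
      · exact e
      · exact absurd e (hK _ hw _ hw')
      · exact absurd e (hK _ hw' _ hw)
    have := S_pos m 0
    omega
  | 0, j + 1, F, hl, hs, _ => by
    have : F = ∅ := eq_empty_of_forall_notMem fun w hw => by
      have h := hs w hw
      rw [List.length_eq_zero_iff.1 (hl w hw)] at h
      exact absurd h (by decide)
    have := S_pos 0 (j + 1)
    simp_all; omega
  | m + 1, j + 1, F, hl, hs, hK => by
    have d : ∀ (x : A) (q : Fin 4), δ q x = 1 →
      (x, q) ∈ ({(some 0, 0), (some (-1), 1), (some 1, 1)} : Finset (A × Fin 4)) := by decide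
    have h1 := card_le_fib F m hl _ fun x w h => d x _ (hs _ h)
    rw [sum_insert (by decide), sum_pair (by decide)] at h1
    have h2 := fib0 F m hl (some 0)
    have h3 := Gb m (j + 1) (fib F (some (-1)) 1 ∪ fib F (some 1) 1)
      (fun w hw => by
        rcases mem_union.1 hw with h | h <;> simpa using hl _ (mem_fib.1 h).1)
      (fun w hw => by rcases mem_union.1 hw with h | h <;> exact (mem_fib.1 h).2)
      (fun w hw w' hw' a => by
        rcases mem_union.1 hw with h | h <;> rcases mem_union.1 hw' with h' | h' <;>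
          exact hK _ (mem_fib.1 h).1 _ (mem_fib.1 h').1 (.skip _ _ a))
    have h4 := Gb m j (fib F (some (-1)) 1 ∩ fib F (some 1) 1)
      (fun w hw => by simpa using hl _ (mem_fib.1 (mem_inter.1 hw).1).1)
      (fun w hw => (mem_fib.1 (mem_inter.1 hw).1).2)
      (fun w hw w' hw' a => hK _ (mem_fib.1 (mem_inter.1 hw').1).1 _
        (mem_fib.1 (mem_inter.1 hw).2).1 (.step ⟨_, _, rfl, rfl, by decide⟩ a))
    have h5 := card_union_add_card_inter (fib F (some (-1)) 1) (fib F (some 1) 1)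
    rw [S_succ]
    simp only at h1
    omega

lemma Hb (k : ℕ) : ∀ (m : ℕ) (F : Finset (List A)), (∀ w ∈ F, w.length = m) →
    (∀ w ∈ F, st w = 1 ∨ st w = 2) → K (k + 2) F →
    F.card ≤ 4 * ∑ l ∈ range (k + 1), m.choose (l + 1)
  | 0, F, hl, hs, _ => by
    have : F = ∅ := eq_empty_of_forall_notMem fun w hw => by
      have h := hs w hw
      rw [List.length_eq_zero_iff.1 (hl w hw)] at h
      exact absurd h (by decide)
    simp [this]
  | m + 1, F, hl, hs, hK => by
    have d : ∀ (x : A) (q : Fin 4), δ q x = 1 ∨ δ q x = 2 → (x, q) ∈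
      ({(some 0, 0), (none, 2), (some (-1), 1), (some 0, 1), (some 1, 1)} :
        Finset (A × Fin 4)) := by decide
    have h1 := card_le_fib F m hl _ fun x w h => d x _ (hs _ h)
    rw [sum_insert (by decide), sum_insert (by decide), sum_insert (by decide),
      sum_pair (by decide)] at h1
    have h2 := fib0 F m hl (some 0)
    set a := fib F (some (-1)) 1
    set b := fib F (some 0) 1
    set c := fib F (some 1) 1
    set z := fib F none 2
    have m1 : ∀ w ∈ a ∪ (b ∪ c), (∃ x, x :: w ∈ F) ∧ st w = 1 := fun w hw => by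
      simp only [mem_union] at hw
      rcases hw with h | h | h <;> exact ⟨⟨_, (mem_fib.1 h).1⟩, (mem_fib.1 h).2⟩
    have m2 : ∀ w ∈ z ∪ (a ∪ (b ∪ c)), (∃ x, x :: w ∈ F) ∧ (st w = 1 ∨ st w = 2) := fun w hw => by
      rcases mem_union.1 hw with h | h
      · exact ⟨⟨_, (mem_fib.1 h).1⟩, Or.inr (mem_fib.1 h).2⟩
      · exact ⟨(m1 w h).1, Or.inl (m1 w h).2⟩
    have h3 := Hb k m (z ∪ (a ∪ (b ∪ c)))
      (fun w hw => by obtain ⟨x, h⟩ := (m2 w hw).1; simpa using hl _ h)
      (fun w hw => (m2 w hw).2)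
      (fun w hw w' hw' al => by
        obtain ⟨x, h⟩ := (m2 w hw).1
        obtain ⟨y, h'⟩ := (m2 w' hw').1
        exact hK _ h _ h' (.skip _ _ al))
    rw [card_union_of_disjoint (disjoint_left.2 fun w h h' => by
      have e := (mem_fib.1 h).2
      rw [(m1 w h').2] at e
      exact absurd e (by decide))] at h3
    have h4 := Gb m k (a ∩ (b ∪ c))
      (fun w hw => by simpa using hl _ (mem_fib.1 (mem_inter.1 hw).1).1)
      (fun w hw => (mem_fib.1 (mem_inter.1 hw).1).2)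
      (fun w hw w' hw' al => by
        rcases mem_union.1 (mem_inter.1 hw).2 with h | h <;>
          exact hK _ (mem_fib.1 (mem_inter.1 hw').1).1 _ (mem_fib.1 h).1
            (.step ⟨_, _, rfl, rfl, by decide⟩ al))
    have h5 := Gb m k (b ∩ c)
      (fun w hw => by simpa using hl _ (mem_fib.1 (mem_inter.1 hw).1).1)
      (fun w hw => (mem_fib.1 (mem_inter.1 hw).1).2)
      (fun w hw w' hw' al => hK _ (mem_fib.1 (mem_inter.1 hw').1).1 _
        (mem_fib.1 (mem_inter.1 hw).2).1 (.step ⟨_, _, rfl, rfl, by decide⟩ al))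
    have h6 := card_union_add_card_inter a (b ∪ c)
    have h7 := card_union_add_card_inter b c
    simp only [Nat.choose_succ_succ', sum_add_distrib]
    simp only [S] at h4 h5
    simp only at h1
    omega

/-! geometric part -/

lemma graph (φ : C(I, ℝ × ℝ)) (hm : ∀ s t, (φ s).1 = (φ t).1 → φ s = φ t)
    (h0 : ∀ t, t ≠ 0 → t ≠ 1 → φ t ≠ φ 0 ∧ φ t ≠ φ 1) (a b : ℝ) (hab : a < b)
    (he : ((φ 0).1 = a ∧ (φ 1).1 = b) ∨ ((φ 0).1 = b ∧ (φ 1).1 = a)) :
    ∃ g : ℝ → ℝ, Continuous g ∧ (∀ t, (φ t).2 = g (φ t).1 ∧ (φ t).1 ∈ Set.Icc a b) ∧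
      ∀ z ∈ Set.Icc a b, ∃ t, (φ t).1 = z := by
  have hc : Continuous fun t => (φ t).1 := by fun_prop
  have ne : ∀ t, t ≠ 0 → t ≠ 1 → (φ t).1 ≠ a ∧ (φ t).1 ≠ b := fun t t0 t1 => by
    obtain ⟨q0, q1⟩ := h0 t t0 t1
    rcases he with ⟨e1, e2⟩ | ⟨e1, e2⟩
    · exact ⟨fun e => q0 (hm _ _ (e.trans e1.symm)), fun e => q1 (hm _ _ (e.trans e2.symm))⟩
    · exact ⟨fun e => q1 (hm _ _ (e.trans e2.symm)), fun e => q0 (hm _ _ (e.trans e1.symm))⟩
  have iv : ∀ s t : I, s ≤ t → ∀ z ∈ Set.uIcc (φ s).1 (φ t).1, ∃ u, s ≤ u ∧ u ≤ t ∧ (φ u).1 = z :=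
    fun s t hst z hz => by
      obtain ⟨u, hu, e⟩ := intermediate_value_uIcc (a := s) (b := t) hc.continuousOn hz
      rw [Set.uIcc_of_le hst] at hu
      exact ⟨u, hu.1, hu.2, e⟩
  have rg : ∀ t, (φ t).1 ∈ Set.Icc a b := fun t => by
    by_contra hn
    have t0 : t ≠ 0 := by rintro rfl; rcases he with ⟨e, -⟩ | ⟨e, -⟩ <;> simp [e, hab.le] at hn
    have t1 : t ≠ 1 := by rintro rfl; rcases he with ⟨-, e⟩ | ⟨-, e⟩ <;> simp [e, hab.le] at hn
    have key : ∀ u : I, (φ u).1 = a ∨ (φ u).1 = b → u = 0 ∨ u = 1 := fun u hu => by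
      by_contra hh
      push Not at hh
      have := ne u hh.1 hh.2
      tauto
    have k1 : ∀ z ∈ Set.uIcc (φ 0).1 (φ t).1, z = a ∨ z = b → z = (φ 0).1 := fun z hz h => by
      obtain ⟨u, -, u2, rfl⟩ := iv 0 t t.2.1 z hz
      rcases key u h with rfl | rfl
      · rfl
      · exact absurd (le_antisymm unitInterval.le_one' u2) t1
    have k2 : ∀ z ∈ Set.uIcc (φ t).1 (φ 1).1, z = a ∨ z = b → z = (φ 1).1 := fun z hz h => by
      obtain ⟨u, u1, -, rfl⟩ := iv t 1 t.2.2 z hz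
      rcases key u h with rfl | rfl
      · exact absurd (le_antisymm u1 unitInterval.nonneg') t0
      · rfl
    simp only [Set.mem_Icc, not_and_or, not_le] at hn
    simp only [Set.mem_uIcc] at k1 k2
    rcases he with ⟨e1, e2⟩ | ⟨e1, e2⟩ <;> rw [e1] at k1 <;> rw [e2] at k2 <;>
      rcases hn with hn | hn
    · exact hab.ne (k2 a (Or.inl ⟨hn.le, hab.le⟩) (Or.inl rfl))
    · exact hab.ne' (k1 b (Or.inl ⟨hab.le, hn.le⟩) (Or.inr rfl))
    · exact hab.ne (k1 a (Or.inr ⟨hn.le, hab.le⟩) (Or.inl rfl))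
    · exact hab.ne' (k2 b (Or.inr ⟨hab.le, hn.le⟩) (Or.inr rfl))
  have sj : ∀ z ∈ Set.Icc a b, ∃ t, (φ t).1 = z := fun z hz => by
    obtain ⟨u, -, -, e⟩ := iv 0 1 zero_le_one z (by
      rcases he with ⟨e1, e2⟩ | ⟨e1, e2⟩ <;> rw [e1, e2]
      · exact Set.Icc_subset_uIcc hz
      · exact Set.Icc_subset_uIcc' hz)
    exact ⟨u, e⟩
  let π : I → Set.Icc a b := fun t => ⟨_, rg t⟩
  have πc : Continuous π := hc.subtype_mk _
  have πs : Function.Surjective π := fun z => by
    obtain ⟨t, e⟩ := sj z.1 z.2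
    exact ⟨t, Subtype.ext e⟩
  let g0 : Set.Icc a b → ℝ := fun z => (φ (Function.surjInv πs z)).2
  have e0 : ∀ t, g0 (π t) = (φ t).2 := fun t =>
    congrArg Prod.snd (hm _ _ (congrArg Subtype.val (Function.surjInv_eq πs (π t))))
  have gc : Continuous g0 := by
    rw [(πc.isClosedMap.isQuotientMap πc πs).continuous_iff]
    have : g0 ∘ π = fun t => (φ t).2 := funext e0
    rw [this]; fun_prop
  refine ⟨Set.IccExtend hab.le g0, gc.Icc_extend', fun t => ⟨?_, rg t⟩, sj⟩
  rw [Set.IccExtend_of_mem _ _ (rg t)]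
  exact (e0 t).symm

lemma hty (D : Drawing n E) (v w : Fin n) (α β : I → ℝ × ℝ) (ca : Continuous α)
    (cb : Continuous β) (g h : ℝ → ℝ) (cg : Continuous g) (ch : Continuous h) (a b : ℝ)
    (ha : ∀ t, (α t).2 = g (α t).1 ∧ (α t).1 ∈ Set.Icc a b)
    (hb : ∀ t, (β t).2 = h (β t).1 ∧ (β t).1 ∈ Set.Icc a b)
    (a0 : α 0 = D.pos v) (a1 : α 1 = D.pos w) (b0 : β 0 = D.pos v) (b1 : β 1 = D.pos w)
    (hs : ∀ x, x ≠ v → x ≠ w → (D.pos x).1 ∈ Set.Icc a b →
      (g (D.pos x).1 < (D.pos x).2 ∧ h (D.pos x).1 < (D.pos x).2) ∨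
      ((D.pos x).2 < g (D.pos x).1 ∧ (D.pos x).2 < h (D.pos x).1)) : D.Hty v w α β := by
  let X : I × I → ℝ := fun p => (1 - p.1) * (α p.2).1 + p.1 * (β p.2).1
  have cX : Continuous X := by fun_prop
  refine ⟨⟨fun p => (X p, (1 - p.1) * g (X p) + p.1 * h (X p)), by fun_prop⟩, fun t => ?_,
    fun t => ?_, fun s => ?_, fun s => ?_, fun p x x1 x2 e => ?_⟩
  · simp [X, ← (ha t).1]
  · simp [X, ← (hb t).1]
  · have e1 := (ha 0).1
    have e2 := (hb 0).1
    rw [a0] at e1; rw [b0] at e2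
    have : X (s, 0) = (D.pos v).1 := by simp only [X, a0, b0]; ring
    simp only [ContinuousMap.coe_mk, this, ← e1, ← e2]
    ext
    · rfl
    · simp only; ring
  · have e1 := (ha 1).1
    have e2 := (hb 1).1
    rw [a1] at e1; rw [b1] at e2
    have : X (s, 1) = (D.pos w).1 := by simp only [X, a1, b1]; ring
    simp only [ContinuousMap.coe_mk, this, ← e1, ← e2]
    ext
    · rfl
    · simp only; ring
  · have e1 : X p = (D.pos x).1 := congrArg Prod.fst e
    have e2 : (1 - p.1) * g (X p) + p.1 * h (X p) = (D.pos x).2 := congrArg Prod.snd e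
    have s0 : (0 : ℝ) ≤ p.1 := p.1.2.1
    have s1 : (p.1 : ℝ) ≤ 1 := p.1.2.2
    have r1 := (ha p.2).2
    have r2 := (hb p.2).2
    have hx : X p ∈ Set.Icc a b := by
      constructor <;> simp only [X] <;> nlinarith [r1.1, r1.2, r2.1, r2.2]
    rw [e1] at hx e2
    rcases hs x x1 x2 hx with ⟨q1, q2⟩ | ⟨q1, q2⟩ <;> rcases s0.eq_or_lt with e | e
    · rw [← e] at e2; linarith
    · nlinarith
    · rw [← e] at e2; linarith
    · nlinarith

def T (c : ℕ → A) : ℕ → List A
  | 0 => []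
  | m + 1 => c m :: T c m

lemma T_len (c : ℕ → A) : ∀ m, (T c m).length = m
  | 0 => rfl
  | m + 1 => by simp [T, T_len c m]

lemma T_inj (c c' : ℕ → A) : ∀ m, T c m = T c' m → ∀ p < m, c p = c' p
  | 0, _, p, h => absurd h (by omega)
  | m + 1, e, p, h => by
    simp only [T, List.cons.injEq] at e
    rcases Nat.lt_succ_iff_lt_or_eq.1 h with h | rfl
    · exact T_inj c c' m e.2 p h
    · exact e.1

lemma T_st (c : ℕ → A) (l r : ℕ) (hlr : l < r) (h1 : ∀ p, p < l ∨ r < p → c p = none)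
    (h2 : c l = some 0) (h3 : c r = some 0) (h4 : ∀ p, l < p → p < r → c p ≠ none ∧ c p ≠ some 0) :
    ∀ m, st (T c m) = if m ≤ l then 0 else if m ≤ r then 1 else 2
  | 0 => by simp [T, st]
  | m + 1 => by
    rw [T, st, T_st c l r hlr h1 h2 h3 h4 m]
    rcases lt_trichotomy m l with a | rfl | a
    · rw [h1 m (Or.inl a), if_pos a.le, if_pos (by omega)]; rfl
    · rw [h2, if_pos le_rfl, if_neg (by omega), if_pos (by omega)]; rfl
    rw [if_neg (by omega), if_neg (show ¬ m + 1 ≤ l by omega)]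
    rcases lt_trichotomy m r with b | rfl | b
    · rw [if_pos b.le, if_pos (by omega)]
      simp [δ, h4 m a b]
    · rw [h3, if_pos le_rfl, if_neg (by omega)]; rfl
    · rw [h1 m (Or.inr b), if_neg (by omega), if_neg (by omega)]; rfl

lemma main [Fintype E] (D : Drawing n E) (hx : Monotone fun v => (D.pos v).1) (hm : D.Mono)
    (hh : ∀ e f, e ≠ f → ¬ D.Homotopic e f) (k : ℕ)
    (hk : ∀ e f, e ≠ f → (D.crossings e f).encard ≤ k) :
    Fintype.card E ≤ 4 * ∑ l ∈ range (k + 1), n.choose (l + 1) := by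
  classical
  let x : Fin n → ℝ := fun v => (D.pos v).1
  let y : Fin n → ℝ := fun v => (D.pos v).2
  let l : E → Fin n := fun e => min (D.src e) (D.tgt e)
  let r : E → Fin n := fun e => max (D.src e) (D.tgt e)
  have lr : ∀ e, (D.src e = l e ∧ D.tgt e = r e ∧ l e < r e) ∨
      (D.src e = r e ∧ D.tgt e = l e ∧ l e < r e) := fun e => by
    rcases lt_or_gt_of_ne (hm e).1 with h | h
    · simp [l, r, h.le, h]
    · simp [l, r, h.le, h]
  have lr' : ∀ e, l e < r e := fun e => by rcases lr e with h | h <;> exact h.2.2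
  have he : ∀ e, ((D.φ e 0).1 = x (l e) ∧ (D.φ e 1).1 = x (r e)) ∨
      ((D.φ e 0).1 = x (r e) ∧ (D.φ e 1).1 = x (l e)) := fun e => by
    rw [D.h0, D.h1]
    rcases lr e with ⟨a, b, -⟩ | ⟨a, b, -⟩ <;> rw [a, b]
    · exact Or.inl ⟨rfl, rfl⟩
    · exact Or.inr ⟨rfl, rfl⟩
  have xlr : ∀ e, x (l e) < x (r e) := fun e => by
    refine lt_of_le_of_ne (hx (lr' e).le) fun q => (hm e).1 (D.inj ?_)
    rw [← D.h0, ← D.h1]
    apply (hm e).2
    rcases he e with ⟨a, b⟩ | ⟨a, b⟩ <;> rw [a, b, q]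
  choose g gc g1 g2 using fun e => graph (D.φ e) (hm e).2 (fun t t0 t1 => by
    rw [D.h0, D.h1]; exact ⟨D.avoid e t t0 t1 _, D.avoid e t t0 t1 _⟩) _ _ (xlr e) (he e)
  have gs : ∀ e, g e (x (D.src e)) = y (D.src e) := fun e => by
    have := (g1 e 0).1; rw [D.h0] at this; exact this.symm
  have gt : ∀ e, g e (x (D.tgt e)) = y (D.tgt e) := fun e => by
    have := (g1 e 1).1; rw [D.h1] at this; exact this.symm
  have gl : ∀ e, g e (x (l e)) = y (l e) := fun e => by
    rcases lr e with ⟨a, -⟩ | ⟨-, a, -⟩ <;> rw [← a]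
    · exact gs e
    · exact gt e
  have gr : ∀ e, g e (x (r e)) = y (r e) := fun e => by
    rcases lr e with ⟨-, a, -⟩ | ⟨a, -⟩ <;> rw [← a]
    · exact gt e
    · exact gs e
  have nz : ∀ e p, p ≠ D.src e → p ≠ D.tgt e → x p ∈ Set.Icc (x (l e)) (x (r e)) →
      g e (x p) ≠ y p := fun e p p1 p2 hp q => by
    obtain ⟨t, ht⟩ := g2 e _ hp
    have : D.φ e t = D.pos p := Prod.ext ht (by rw [(g1 e t).1, ht, q])
    by_cases t0 : t = 0
    · rw [t0, D.h0] at this; exact p1 (D.inj this).symm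
    by_cases t1 : t = 1
    · rw [t1, D.h1] at this; exact p2 (D.inj this).symm
    exact D.avoid e t t0 t1 p this
  let c : E → ℕ → A := fun e p => if h : (l e).1 ≤ p ∧ p ≤ (r e).1 then
    some (SignType.sign (g e (x ⟨p, h.2.trans_lt (r e).2⟩) - y ⟨p, h.2.trans_lt (r e).2⟩))
    else none
  have c1 : ∀ e (p : Fin n), l e ≤ p → p ≤ r e →
      c e p = some (SignType.sign (g e (x p) - y p)) := fun e p a b => dif_pos ⟨a, b⟩
  have c2 : ∀ e p a, c e p = some a → ∃ q : Fin n, q.1 = p ∧ l e ≤ q ∧ q ≤ r e := fun e p a h => by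
    by_cases h' : (l e).1 ≤ p ∧ p ≤ (r e).1
    · exact ⟨⟨p, h'.2.trans_lt (r e).2⟩, rfl, h'.1, h'.2⟩
    · simp [c, h'] at h
  have alt : ∀ m j e f, Alt (j + 1) (T (c e) m) (T (c f) m) → ∃ p : Fin n, p.1 < m ∧
      l e ≤ p ∧ p ≤ r e ∧ l f ≤ p ∧ p ≤ r f ∧ g e (x p) < g f (x p) ∧ ∃ Z : Finset ℝ,
        Z.card = j ∧ ∀ z ∈ Z, z < x p ∧ x (l e) < z ∧ x (l f) < z ∧ g e z = g f z := by
    intro m
    induction m with
    | zero => intro j e f h; cases h
    | succ m ih =>
      intro j e f h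
      have inv : ∀ {u v : A} {w w' : List A}, Alt (j + 1) (u :: w) (v :: w') →
          Alt (j + 1) w w' ∨ (lt u v ∧ Alt j w' w) := fun h => by
        cases h with
        | skip _ _ h => exact Or.inl h
        | step h1 h2 => exact Or.inr ⟨h1, h2⟩
      rcases inv h with h | ⟨⟨a, b, ea, eb, ab⟩, h⟩
      · obtain ⟨p, h1, h2⟩ := ih j e f h
        exact ⟨p, by omega, h2⟩
      obtain ⟨q, rfl, q1, q2⟩ := c2 _ _ _ ea
      obtain ⟨q', eq, q3, q4⟩ := c2 _ _ _ eb
      obtain rfl : q' = q := Fin.ext eq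
      rw [c1 _ _ q1 q2] at ea
      rw [c1 _ _ q3 q4] at eb
      have hq : g e (x q') < g f (x q') := by
        by_contra hn
        have := SignType.sign.monotone (sub_le_sub_right (not_lt.1 hn) (y q'))
        rw [Option.some.inj ea, Option.some.inj eb] at this
        exact absurd ab (not_lt.2 this)
      refine ⟨q', by omega, q1, q2, q3, q4, hq, ?_⟩
      cases j with
      | zero => exact ⟨∅, rfl, by simp⟩
      | succ j =>
        obtain ⟨p, p0, p1, -, p3, -, p5, Z, hZ, hz⟩ := ih j f e h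
        have pq : x p ≤ x q' := hx (show p ≤ q' from p0.le)
        obtain ⟨z, ⟨z1, z2⟩, ez⟩ := intermediate_value_Icc pq
          ((gc f).sub (gc e)).continuousOn (show (0 : ℝ) ∈ Set.Icc _ _ from
            ⟨(sub_neg.2 p5).le, (sub_pos.2 hq).le⟩)
        have ez' : g e z = g f z := (sub_eq_zero.1 ez).symm
        have z3 : x p < z := lt_of_le_of_ne z1 (by rintro rfl; exact p5.ne' ez')
        have z4 : z < x q' := lt_of_le_of_ne z2 (by rintro rfl; exact hq.ne ez')
        refine ⟨insert z Z, ?_, fun u hu => ?_⟩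
        · rw [card_insert_of_notMem fun hu => lt_asymm (hz z hu).1 z3, hZ]
        · rcases mem_insert.1 hu with rfl | hu
          · exact ⟨z4, (hx p3).trans_lt z3, (hx p1).trans_lt z3, ez'⟩
          · obtain ⟨u1, u2, u3, u4⟩ := hz u hu
            exact ⟨u1.trans_le pq, u3, u2, u4.symm⟩
  have int : ∀ e z, x (l e) < z → z < x (r e) → ∃ t, t ≠ 0 ∧ t ≠ 1 ∧ D.φ e t = (z, g e z) :=
    fun e z z1 z2 => by
      obtain ⟨t, ht⟩ := g2 e z ⟨z1.le, z2.le⟩
      refine ⟨t, ?_, ?_, Prod.ext ht (by rw [(g1 e t).1, ht])⟩ <;> rintro rfl <;>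
        rcases he e with ⟨a, b⟩ | ⟨a, b⟩ <;> linarith
  have inj : Function.Injective fun e => T (c e) n := fun e f q => by
    by_contra hne
    have q := T_inj _ _ n q
    have key : ∀ e f, (∀ p < n, c e p = c f p) → ∀ p, l e ≤ p → p ≤ r e → l f ≤ p ∧ p ≤ r f :=
      fun e f q p a b => by
        obtain ⟨u, u1, u2⟩ := c2 f p _ ((q p p.2).symm.trans (c1 e p a b))
        rwa [Fin.ext u1] at u2
    have k1 := key e f q
    have k2 := key f e fun p hp => (q p hp).symm
    have el : l e = l f :=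
      le_antisymm (k2 _ le_rfl (lr' f).le).1 (k1 _ le_rfl (lr' e).le).1
    have er : r e = r f :=
      le_antisymm (k1 _ (lr' e).le le_rfl).2 (k2 _ (lr' f).le le_rfl).2
    have hs : ∀ p, p ≠ D.src e → p ≠ D.tgt e → x p ∈ Set.Icc (x (l e)) (x (r e)) →
        (g e (x p) < y p ∧ g f (x p) < y p) ∨ (y p < g e (x p) ∧ y p < g f (x p)) := by
      intro p p1 p2 hp
      have sg : SignType.sign (g e (x p) - y p) = SignType.sign (g f (x p) - y p) := by
        rcases le_total p (l e) with a | a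
        · have : x p = x (l e) := le_antisymm (hx a) hp.1
          rw [this, gl, el, gl]
        rcases le_total (r e) p with b | b
        · have : x p = x (r e) := le_antisymm hp.2 (hx b)
          rw [this, gr, er, gr]
        have := q p p.2
        rw [c1 e p a b, c1 f p (el ▸ a) (er ▸ b)] at this
        exact Option.some.inj this
      rcases lt_or_gt_of_ne (nz e p p1 p2 hp) with a | a
      · rw [sign_neg (sub_neg.2 a), eq_comm, sign_eq_neg_one_iff, sub_neg] at sg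
        exact Or.inl ⟨a, sg⟩
      · rw [sign_pos (sub_pos.2 a), eq_comm, sign_eq_one_iff, sub_pos] at sg
        exact Or.inr ⟨a, sg⟩
    have gf : ∀ t, (D.φ f t).2 = g f (D.φ f t).1 ∧
        (D.φ f t).1 ∈ Set.Icc (x (l e)) (x (r e)) := by rw [el, er]; exact g1 f
    apply hh e f hne
    have cs : (D.src e = D.src f ∧ D.tgt e = D.tgt f) ∨ (D.src e = D.tgt f ∧ D.tgt e = D.src f) := by
      rcases lr e with ⟨a, b, -⟩ | ⟨a, b, -⟩ <;> rcases lr f with ⟨a', b', -⟩ | ⟨a', b', -⟩ <;>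
        rw [a, b, a', b', el, er] <;> simp
    rcases cs with ⟨a, b⟩ | ⟨a, b⟩
    · exact Or.inl ⟨a, b, hty D _ _ _ _ (D.φ e).continuous (D.φ f).continuous _ _ (gc e) (gc f)
        _ _ (g1 e) gf (D.h0 e) (D.h1 e) (a ▸ D.h0 f) (b ▸ D.h1 f) hs⟩
    · exact Or.inr ⟨a, b, hty D _ _ _ _ (D.φ e).continuous (by fun_prop) _ _ (gc e) (gc f)
        _ _ (g1 e) (fun t => gf _) (D.h0 e) (D.h1 e) (by simp [a, D.h1]) (by simp [b, D.h0]) hs⟩
  rw [← card_univ, ← card_image_of_injective _ inj]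
  apply Hb
  · intro w hw
    obtain ⟨e, -, rfl⟩ := mem_image.1 hw
    exact T_len _ _
  · intro w hw
    obtain ⟨e, -, rfl⟩ := mem_image.1 hw
    right
    have a := lr' e
    have b := (r e).2
    rw [T_st (c e) (l e) (r e) a (fun p hp => dif_neg (by omega))
      (by rw [c1 e _ le_rfl a.le, gl]; simp) (by rw [c1 e _ a.le le_rfl, gr]; simp)
      (fun p p1 p2 => by
        have u1 : l e < ⟨p, p2.trans b⟩ := p1
        have u2 : ⟨p, p2.trans b⟩ < r e := p2
        have := c1 e ⟨p, p2.trans b⟩ u1.le u2.le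
        simp only at this
        rw [this]
        refine ⟨by simp, ?_⟩
        simp only [ne_eq, Option.some.injEq, sign_eq_zero_iff, sub_eq_zero]
        apply nz e _ _ _ ⟨hx u1.le, hx u2.le⟩ <;>
          rcases lr e with ⟨a, b, -⟩ | ⟨a, b, -⟩ <;> simp only [a, b]
        · exact u1.ne'
        · exact u2.ne
        · exact u2.ne
        · exact u1.ne'), if_neg (by rw [Fin.lt_def] at a; omega), if_neg (by omega)]
  · intro w hw w' hw' h
    obtain ⟨e, -, rfl⟩ := mem_image.1 hw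
    obtain ⟨f, -, rfl⟩ := mem_image.1 hw'
    obtain ⟨p, -, -, p2, -, p4, p5, Z, hZ, hz⟩ := alt _ _ _ _ h
    have hne : e ≠ f := by rintro rfl; exact lt_irrefl _ p5
    have sub : (Z : Set ℝ) ⊆ (fun p => (D.φ e p.1).1) '' D.crossings e f := fun z hz' => by
      obtain ⟨z1, z2, z3, z4⟩ := hz z hz'
      obtain ⟨s, s0, s1, es⟩ := int e z z2 (z1.trans_le (hx p2))
      obtain ⟨t, t0, t1, et⟩ := int f z z3 (z1.trans_le (hx p4))
      exact ⟨(s, t), ⟨s0, s1, t0, t1, by rw [es, et, z4]⟩, by simp [es]⟩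
    have := ((Set.encard_le_encard sub).trans (Set.encard_image_le _ _)).trans (hk e f hne)
    rw [Set.encard_coe_eq_coe_finsetCard, hZ] at this
    exact absurd (Nat.cast_le.1 this) (by omega)

theorem result (n k : ℕ) (E : Type) [Fintype E] (D : Drawing n E) (hm : D.Mono)
    (hh : ∀ e f, e ≠ f → ¬ D.Homotopic e f)
    (hk : ∀ e f, e ≠ f → (D.crossings e f).encard ≤ k) :
    Fintype.card E ≤ 4 * ∑ l ∈ range (k + 1), n.choose (l + 1) := by
  let τ := Tuple.sort fun v => (D.pos v).1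
  let D' : Drawing n E :=
    { pos := D.pos ∘ τ
      inj := D.inj.comp τ.injective
      src := τ.symm ∘ D.src
      tgt := τ.symm ∘ D.tgt
      φ := D.φ
      h0 := fun e => by simp [D.h0]
      h1 := fun e => by simp [D.h1]
      avoid := fun e t a b v => D.avoid e t a b _ }
  have ht : ∀ v w α β, D'.Hty (τ.symm v) (τ.symm w) α β → D.Hty v w α β := by
    rintro v w α β ⟨H, a, b, c, d, e⟩
    refine ⟨H, a, b, by simpa [D'] using c, by simpa [D'] using d, fun p x x1 x2 => ?_⟩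
    simpa [D'] using e p (τ.symm x) (by simpa using x1) (by simpa using x2)
  refine main D' (Tuple.monotone_sort fun v => (D.pos v).1)
    (fun e => ⟨fun q => (hm e).1 (τ.symm.injective q), (hm e).2⟩) (fun e f hne q => ?_) k hk
  apply hh e f hne
  rcases q with ⟨a, b, c⟩ | ⟨a, b, c⟩
  · exact Or.inl ⟨τ.symm.injective a, τ.symm.injective b, ht _ _ _ _ c⟩
  · exact Or.inr ⟨τ.symm.injective a, τ.symm.injective b, ht _ _ _ _ c⟩

end Pool.Agent.Results.MP_6a261b_co.FourBound
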